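import Pool.Agent.Q277.TG.Dim

set_option autoImplicit false

namespace Pool.Agent.Results.MP_141d59_an.TakagiLevelSets

/-- `w` is an admissible family of sign functions: `w n` takes the values `1` and `-1` on `[0, 1]`
and is constant on each interval `[j / 2 ^ n, (j + 1) / 2 ^ n)`, `0 ≤ j < 2 ^ n`. -/
def SignFamily (w : ℕ → ℝ → ℝ) : Prop :=
  (∀ n : ℕ, ∀ x ∈ Set.Icc (0 : ℝ) 1, w n x = 1 ∨ w n x = -1) ∧
  (∀ n j : ℕ, j < 2 ^ n → ∃ c : ℝ, ∀ x ∈ Set.Ico ((j : ℝ) / 2 ^ n) (((j : ℝ) + 1) / 2 ^ n), w n x = c)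

/-- the generalized Takagi function `∑ n, w n x / 2 ^ n * dist (2 ^ n x, ℤ)` -/
noncomputable def takagi (w : ℕ → ℝ → ℝ) (x : ℝ) : ℝ :=
  ∑' n : ℕ, w n x / 2 ^ n * |2 ^ n * x - round (2 ^ n * x)|

/-- There is a generalized Takagi function in the class `T_v` all of whose level sets have
Hausdorff dimension zero. -/
theorem result : ∃ w : ℕ → ℝ → ℝ, SignFamily w ∧
    ∀ y : ℝ, dimH {x : ℝ | x ∈ Set.Icc (0 : ℝ) 1 ∧ takagi w x = y} = 0 := by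
  refine ⟨Q277.TG.om, ⟨fun n x _ => Q277.TG.om_sign n x, fun n j _ =>
    ⟨Q277.TG.om n ((j : ℝ) / 2 ^ n), fun x hx => Q277.TG.om_const n j x hx.1 hx.2⟩⟩, fun y => ?_⟩
  exact Q277.TG.level_dim y

end Pool.Agent.Results.MP_141d59_an.TakagiLevelSets
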